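import Mathlib
import Pool.Agent.J4.H85.TA4
import Pool.Agent.J4.H85.TS18

/-!
# The extension estimate for densities whose spectrum in one variable is thin

Let `R = A × (a, a + L]` with `A ⊆ [-1, 1]` measurable. For almost every `s ∈ A` expand the slice
`f (s, ·)` of the density `f` in a Fourier series on the interval `(a, a + L]`, and suppose that only
frequencies in a fixed set `Λ` of integers occur. There is no other condition; in particular the
dependence on the first variable and on the coefficients is arbitrary.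

If every nonzero integer `m` has at most `M |m| ^ κ` representations as a difference of two elements
of `Λ`, where `κ < 1`, then the extension estimate holds for `f` for all `q > 2 + 2 / (2 - κ)`. If
`Λ` is the set of the values of an integer polynomial of degree at least `2` (for instance the
squares), it holds for all `q > 3`, the full range of the conjecture.
-/

set_option autoImplicit false

open MeasureTheory Set Polynomial
open scoped ENNReal NNReal RealInnerProductSpace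

namespace Pool.Agent.Results.MP_5ab805_an.ThinSpectrum

/-- The parametrization of the paraboloid. -/
noncomputable def Phi (x : EuclideanSpace ℝ (Fin 2)) : EuclideanSpace ℝ (Fin 3) :=
  !₂[x 0, x 1, x 0 ^ 2 + x 1 ^ 2]

/-- The Fourier extension operator, `ξ ↦ ∫_V exp (-i Φ(x)·ξ) f(x) dx`. -/
noncomputable def ext (V : Set (EuclideanSpace ℝ (Fin 2))) (f : EuclideanSpace ℝ (Fin 2) → ℂ)
    (ξ : EuclideanSpace ℝ (Fin 3)) : ℂ :=
  ∫ x in V, Complex.exp (-(⟪Phi x, ξ⟫ : ℂ) * Complex.I) * f x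

/-- The set `A × (a, a + L]`. -/
def rect (A : Set ℝ) (a L : ℝ) : Set (EuclideanSpace ℝ (Fin 2)) :=
  {x | x 0 ∈ A ∧ x 1 ∈ Ioc a (a + L)}

/-- The `k`-th Fourier coefficient of `f (s, ·)` on `(a, a + L]`, without the factor `1 / L`. -/
noncomputable def coef (a L : ℝ) (f : EuclideanSpace ℝ (Fin 2) → ℂ) (s : ℝ) (k : ℤ) : ℂ :=
  ∫ u in Ioc a (a + L), Complex.exp (-((2 * Real.pi * k * u / L : ℝ) : ℂ) * Complex.I) * f !₂[s, u]

/-- For almost all `s ∈ A` the Fourier series of `f (s, ·)` on `(a, a + L]` has only frequencies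
in `Λ`. -/
def SpectrumIn (Λ : Set ℤ) (A : Set ℝ) (a L : ℝ) (f : EuclideanSpace ℝ (Fin 2) → ℂ) : Prop :=
  ∀ᵐ s : ℝ, s ∈ A → ∀ k : ℤ, k ∉ Λ → coef a L f s k = 0

/-- The norm of `L^q` in the first variable on `A` with values in `L^2` in the second variable on
`(a, a + L]`. -/
noncomputable def mixedNorm (q : ℝ) (A : Set ℝ) (a L : ℝ) (f : EuclideanSpace ℝ (Fin 2) → ℂ) :
    ℝ≥0∞ :=
  (∫⁻ s in A, (∫⁻ u in Ioc a (a + L), ‖f !₂[s, u]‖ₑ ^ 2) ^ (q / 2)) ^ (1 / q)

/-- Every nonzero integer `m` has at most `M |m| ^ κ` representations as a difference of two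
elements of `Λ`. -/
def FewDifferences (Λ : Set ℤ) (κ M : ℝ) : Prop :=
  ∀ m : ℤ, m ≠ 0 → {l : ℤ | l ∈ Λ ∧ l + m ∈ Λ}.Finite ∧
    ({l : ℤ | l ∈ Λ ∧ l + m ∈ Λ}.ncard : ℝ) ≤ M * |(m : ℝ)| ^ κ

/-- The `L^q` norm on `S` of the square function `(∑ |g_i|^2)^(1/2)`. -/
noncomputable def squareNorm (q : ℝ) (S : Set ℝ) (g : ℕ → ℝ → ℂ) : ℝ≥0∞ :=
  (∫⁻ s in S, (∑' i, ‖g i s‖ₑ ^ 2) ^ (q / 2)) ^ (1 / q)

/-- Let `R = A × (a, a + L]`, where `A ⊆ [-1, 1]` is measurable.

(1) Thin spectrum, mixed norms. Let `0 ≤ κ < 1`, `M, L > 0` and `2 + 2 / (2 - κ) < q < 4`. There is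
`C` such that `‖E f‖_q ≤ C ‖f‖_{L^q_{x_1} L^2_{x_2}}` for all `Λ` in which every nonzero integer `m`
has at most `M |m| ^ κ` representations as a difference, all `A` and `a`, and all integrable `f` on
`R` such that almost all slices `f (s, ·)` have Fourier frequencies in `Λ` only.

(2) Thin spectrum. For the same `κ, M, L` and all `q > 2 + 2 / (2 - κ)` there is `C` such that
`‖E f‖_q ≤ C ‖f‖_{L^q(R)}` for all such `Λ`, `A`, `a` and all `f ∈ L^q(R)` with this property.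

(3) Polynomial spectrum, the full range. Let `Λ = P(ℤ)`, where `P` is a polynomial of degree at least
`2` with integer coefficients. For all `q > 3` and `L > 0` there is `C` such that
`‖E f‖_q ≤ C ‖f‖_{L^q(R)}` for all `A`, `a` and all `f ∈ L^q(R)` such that almost all slices
`f (s, ·)` have Fourier frequencies in `Λ` only.

(4) Square functions. For all `q > 3` and `L > 0` there is `C` such that
`‖E f‖_q ≤ C ‖(∑ |g_i|^2)^(1/2)‖_{L^q(A)} ‖(∑ |h_i|^2)^(1/2)‖_{L^q(a, a + L)}` for all `A`, `a` and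
all densities `f (x_1, x_2) = ∑_i g_i (x_1) h_i (x_2)` on `R` for which the right side is finite. -/
theorem result :
    (∀ κ M q L : ℝ, 0 ≤ κ → κ < 1 → 0 < M → 2 + 2 / (2 - κ) < q → q < 4 → 0 < L →
      ∃ C : ℝ≥0, ∀ Λ : Set ℤ, FewDifferences Λ κ M →
        ∀ A : Set ℝ, MeasurableSet A → A ⊆ Icc (-1) 1 →
        ∀ (a : ℝ) (f : EuclideanSpace ℝ (Fin 2) → ℂ), IntegrableOn f (rect A a L) →
        SpectrumIn Λ A a L f →
        eLpNorm (ext (rect A a L) f) (ENNReal.ofReal q) volume ≤ C * mixedNorm q A a L f) ∧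
    (∀ κ M q L : ℝ, 0 ≤ κ → κ < 1 → 0 < M → 2 + 2 / (2 - κ) < q → 0 < L →
      ∃ C : ℝ≥0, ∀ Λ : Set ℤ, FewDifferences Λ κ M →
        ∀ A : Set ℝ, MeasurableSet A → A ⊆ Icc (-1) 1 →
        ∀ (a : ℝ) (f : EuclideanSpace ℝ (Fin 2) → ℂ),
        MemLp f (ENNReal.ofReal q) (volume.restrict (rect A a L)) →
        SpectrumIn Λ A a L f →
        eLpNorm (ext (rect A a L) f) (ENNReal.ofReal q) volume ≤
          C * eLpNorm f (ENNReal.ofReal q) (volume.restrict (rect A a L))) ∧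
    (∀ P : ℤ[X], 2 ≤ P.natDegree → ∀ q L : ℝ, 3 < q → 0 < L →
      ∃ C : ℝ≥0, ∀ A : Set ℝ, MeasurableSet A → A ⊆ Icc (-1) 1 →
        ∀ (a : ℝ) (f : EuclideanSpace ℝ (Fin 2) → ℂ),
        MemLp f (ENNReal.ofReal q) (volume.restrict (rect A a L)) →
        SpectrumIn (range fun n : ℤ => P.eval n) A a L f →
        eLpNorm (ext (rect A a L) f) (ENNReal.ofReal q) volume ≤
          C * eLpNorm f (ENNReal.ofReal q) (volume.restrict (rect A a L))) ∧
    (∀ q L : ℝ, 3 < q → 0 < L →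
      ∃ C : ℝ≥0, ∀ A : Set ℝ, MeasurableSet A → A ⊆ Icc (-1) 1 →
        ∀ (a : ℝ) (g h : ℕ → ℝ → ℂ), (∀ i, Measurable (g i)) → (∀ i, Measurable (h i)) →
        squareNorm q A g ≠ ∞ → squareNorm q (Ioc a (a + L)) h ≠ ∞ →
        ∀ f : EuclideanSpace ℝ (Fin 2) → ℂ,
        (∀ x ∈ rect A a L, f x = ∑' i, g i (x 0) * h i (x 1)) →
        eLpNorm (ext (rect A a L) f) (ENNReal.ofReal q) volume ≤
          C * (squareNorm q A g * squareNorm q (Ioc a (a + L)) h)) := by
  have hcond : ∀ κ q : ℝ, κ < 1 → 2 + 2 / (2 - κ) < q → 2 < (2 - κ) * (q - 2) := by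
    intro κ q hκ hq
    have h1 : 0 < 2 - κ := by linarith
    have h2 : 2 / (2 - κ) < q - 2 := by linarith
    rw [div_lt_iff₀ h1] at h2
    linarith
  have hB : ∀ κ M q L : ℝ, 0 ≤ κ → κ < 1 → 0 < M → 2 + 2 / (2 - κ) < q → 0 < L →
      ∃ C : ℝ≥0, ∀ Λ : Set ℤ, FewDifferences Λ κ M →
        ∀ A : Set ℝ, MeasurableSet A → A ⊆ Icc (-1) 1 →
        ∀ (a : ℝ) (f : EuclideanSpace ℝ (Fin 2) → ℂ),
        MemLp f (ENNReal.ofReal q) (volume.restrict (rect A a L)) →
        SpectrumIn Λ A a L f →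
        eLpNorm (ext (rect A a L) f) (ENNReal.ofReal q) volume ≤
          C * eLpNorm f (ENNReal.ofReal q) (volume.restrict (rect A a L)) := by
    intro κ M q L hκ hκ1 hM hq hL
    obtain ⟨C, hC⟩ := Pool.Agent.J4.H85.TS.thin2 κ M q L hκ hM hκ1 (hcond κ q hκ1 hq) hL
    exact ⟨C, fun Λ hΛ A hA hA1 a f hf hs =>
      hC Λ (Pool.Agent.J4.H85.TS.FD.rbs hΛ) A hA hA1 a f hf hs⟩
  refine ⟨?_, hB, ?_, ?_⟩
  · intro κ M q L hκ hκ1 hM hq hq4 hL
    obtain ⟨C, hCt, _, hC⟩ :=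
      Pool.Agent.J4.H85.TS.thin1 κ M q L hκ hM hκ1 (hcond κ q hκ1 hq) hq4 hL
    refine ⟨C.toNNReal, fun Λ hΛ A hA hA1 a f hf hs => ?_⟩
    rw [ENNReal.coe_toNNReal hCt]
    exact hC Λ (Pool.Agent.J4.H85.TS.FD.rbs hΛ) A hA hA1 a f hf hs
  · intro P hP q L hq hL
    have hq2 : 0 < q - 2 := by linarith
    have hq3 : 0 < q - 3 := by linarith
    set κ : ℝ := min (1 / 2) ((q - 3) / (q - 2)) with hκd
    have hκ0 : 0 < κ := lt_min (by norm_num) (by positivity)
    have hκ1 : κ < 1 := lt_of_le_of_lt (min_le_left _ _) (by norm_num)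
    have hκ2 : κ * (q - 2) ≤ q - 3 := by
      calc κ * (q - 2) ≤ (q - 3) / (q - 2) * (q - 2) := by
            gcongr
            exact min_le_right _ _
        _ = q - 3 := by field_simp
    have hκq : 2 + 2 / (2 - κ) < q := by
      have h1 : 0 < 2 - κ := by linarith
      have h2 : 2 / (2 - κ) < q - 2 := by
        rw [div_lt_iff₀ h1]
        nlinarith
      linarith
    obtain ⟨M, hM, hFD⟩ := Pool.Agent.J4.H85.TS.poly_FD P hP κ hκ0
    obtain ⟨C, hC⟩ := hB κ M q L hκ0.le hκ1 hM hκq hL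
    exact ⟨C, fun A hA hA1 a f hf hs => hC _ hFD A hA hA1 a f hf hs⟩
  · intro q L hq hL
    obtain ⟨C, hC⟩ := Pool.Agent.J4.H85.TS.tensor2 q L hq hL
    refine ⟨C, fun A hA hA1 a g h hg hh hgt hht f hf => ?_⟩
    refine hC A hA hA1 a g h hg hh hgt hht f ?_
    refine (ae_restrict_iff' (Pool.Agent.J4.H85.TS.rect_meas A hA a L)).2 ?_
    exact Filter.Eventually.of_forall fun x hx => hf x hx

end Pool.Agent.Results.MP_5ab805_an.ThinSpectrum
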